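import Pool.Agent.MP_8a92de_lc.H92.Defs

namespace Pool.Agent.MP_8a92de_lc.H86

open H92

/-- The largest fan-in of an AND or OR gate of a formula (MOD gates are not counted). -/
def fanin : Fm → ℕ
  | .var _ => 0
  | .neg c => fanin c
  | .conj k c => max k (Finset.univ.sup fun i => fanin (c i))
  | .disj k c => max k (Finset.univ.sup fun i => fanin (c i))
  | .modp _ c => Finset.univ.sup fun i => fanin (c i)

/-- `f` is computable in non-uniform `NC⁰[p]`: as `IsACmod`, with AND and OR gates of bounded
fan-in; MOD gates have unbounded fan-in. -/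
def IsNCmod (p : ℕ) (f : List Bool → List Bool) : Prop :=
  ∃ (d : ℕ) (q : Polynomial ℕ), ∀ n : ℕ, ∃ len bit : ℕ → Fm,
    (∀ j, (len j).depth ≤ d ∧ (len j).size ≤ q.eval n ∧ fanin (len j) ≤ d ∧
      (bit j).depth ≤ d ∧ (bit j).size ≤ q.eval n ∧ fanin (bit j) ≤ d) ∧
    ∀ x : List Bool, x.length = n → (f x).length ≤ q.eval n ∧ ∀ j,
      (len j).eval p (fun i => x.getD i false) = decide (j < (f x).length) ∧
      (bit j).eval p (fun i => x.getD i false) = (f x).getD j false

end Pool.Agent.MP_8a92de_lc.H86
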